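import Mathlib

/-!
MP_d96af6_lc: for every `n ≥ 2` the intermediate logic of `ω^n` is not locally finite, already in
two variables.
-/

set_option autoImplicit false

namespace Pool.Agent.Results.MP_d96af6_lc.NotLocallyFinite

/-- Intuitionistic propositional formulas in the variables `p_1, …, p_k` (indexed by `Fin k`). -/
inductive Fml (k : ℕ) where
  | var : Fin k → Fml k
  | bot : Fml k
  | and : Fml k → Fml k → Fml k
  | or : Fml k → Fml k → Fml k
  | imp : Fml k → Fml k → Fml k

/-- Kripke forcing at a point of the partial order `W` under the valuation `V`. -/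
def Force {W : Type} [PartialOrder W] {k : ℕ} (V : Fin k → Set W) : W → Fml k → Prop
  | x, .var i => x ∈ V i
  | _, .bot => False
  | x, .and φ ψ => Force V x φ ∧ Force V x ψ
  | x, .or φ ψ => Force V x φ ∨ Force V x ψ
  | x, .imp φ ψ => ∀ y, x ≤ y → Force V y φ → Force V y ψ

/-- `φ ∈ ILog(W, ≤)`: forced at every point under every valuation by upward-closed sets. -/
def InILog (W : Type) [PartialOrder W] {k : ℕ} (φ : Fml k) : Prop :=
  ∀ V : Fin k → Set W, (∀ i, IsUpperSet (V i)) → ∀ x : W, Force V x φ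

/-- `φ ~ ψ`: the formula `φ ↔ ψ`, i.e. `(φ → ψ) ∧ (ψ → φ)`, belongs to `ILog(W, ≤)`. -/
def Equivalent (W : Type) [PartialOrder W] {k : ℕ} (φ ψ : Fml k) : Prop :=
  InILog W (.and (.imp φ ψ) (.imp ψ φ))

abbrev p : Fml 2 := .var 0
abbrev q : Fml 2 := .var 1

/-- The formulas `ψ_L^c`, `c` modulo `3`. -/
def psi : ℕ → ℕ → Fml 2
  | 0, c => if c % 3 = 0 then .imp p q else if c % 3 = 1 then .imp q p else
      .imp (.and (.imp p q) (.imp q p)) (.or p q)
  | L + 1, c => .imp (psi L (c + 2)) (.or (psi L c) (psi L (c + 1)))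

/-- The valuation on `ω²`. -/
def val (N : ℕ) : Fin 2 → Set (ℕ × ℕ) := fun i =>
  {x | N < x.1 + x.2 ∨ (x.1 + x.2 = N ∧ x.1 % 3 = (i : ℕ))}

theorem mem_val {N : ℕ} {i : Fin 2} {x : ℕ × ℕ} :
    x ∈ val N i ↔ N < x.1 + x.2 ∨ (x.1 + x.2 = N ∧ x.1 % 3 = (i : ℕ)) := Iff.rfl

theorem val_upper (N : ℕ) (i : Fin 2) : IsUpperSet (val N i) := by
  rintro ⟨a, b⟩ ⟨c, d⟩ h hx
  rw [mem_val] at *
  rw [Prod.mk_le_mk] at h
  simp only at *
  rcases hx with hx | ⟨hx, hc⟩
  · left; omega
  · by_cases he : N < c + d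
    · left; exact he
    · right
      have h1 : a = c := by omega
      subst h1
      exact ⟨by omega, hc⟩

theorem force_psi (N : ℕ) : ∀ (L c : ℕ) (x : ℕ × ℕ), Force (val N) x (psi L c) ↔
    ∀ y, x ≤ y → y.1 + y.2 + L = N → y.1 % 3 ≠ c % 3 := by
  have hpq : ∀ x, Force (val N) x (.imp p q) ↔
      ∀ y, x ≤ y → y.1 + y.2 + 0 = N → y.1 % 3 ≠ 0 := by
    intro x
    simp only [Force, mem_val]
    constructor
    · intro h y hxy hN hc
      have := h y hxy (Or.inr ⟨by omega, by simpa using hc⟩)
      simp at this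
      omega
    · intro h y hxy hy
      rcases hy with hy | ⟨hy, hc⟩
      · left; exact hy
      · exact absurd (by simpa using hc) (h y hxy (by omega))
  have hqp : ∀ x, Force (val N) x (.imp q p) ↔
      ∀ y, x ≤ y → y.1 + y.2 + 0 = N → y.1 % 3 ≠ 1 := by
    intro x
    simp only [Force, mem_val]
    constructor
    · intro h y hxy hN hc
      have := h y hxy (Or.inr ⟨by omega, by simpa using hc⟩)
      simp at this
      omega
    · intro h y hxy hy
      rcases hy with hy | ⟨hy, hc⟩
      · left; exact hy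
      · exact absurd (by simpa using hc) (h y hxy (by omega))
  intro L
  induction L with
  | zero =>
    intro c x
    have h3 : c % 3 = 0 ∨ c % 3 = 1 ∨ c % 3 = 2 := by omega
    rcases h3 with h3 | h3 | h3
    · have : psi 0 c = .imp p q := by simp [psi, h3]
      rw [this, hpq, h3]
    · have : psi 0 c = .imp q p := by simp [psi, h3]
      rw [this, hqp, h3]
    · have : psi 0 c = .imp (.and (.imp p q) (.imp q p)) (.or p q) := by simp [psi, h3]
      rw [this, h3]
      constructor
      · rintro h ⟨y1, y2⟩ hxy hN hc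
        simp only at hN hc
        have := h (y1, y2) hxy ⟨(hpq _).2 ?_, (hqp _).2 ?_⟩
        · simp only [Force, mem_val] at this
          simp at this
          omega
        · rintro ⟨z1, z2⟩ hz hzN
          rw [Prod.mk_le_mk] at hz
          simp only at *
          omega
        · rintro ⟨z1, z2⟩ hz hzN
          rw [Prod.mk_le_mk] at hz
          simp only at *
          omega
      · rintro h ⟨y1, y2⟩ hxy ⟨hy1, hy2⟩
        rw [hpq] at hy1
        rw [hqp] at hy2
        simp only [Force, mem_val]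
        simp only [Fin.isValue, Fin.coe_ofNat_eq_mod, Nat.zero_mod, Nat.one_mod]
        by_cases hlt : N < y1 + y2
        · left; left; exact hlt
        · by_cases heq : y1 + y2 = N
          · have e1 := hy1 (y1, y2) le_rfl (by simpa using heq)
            have e2 := hy2 (y1, y2) le_rfl (by simpa using heq)
            have e3 := h (y1, y2) hxy (by simpa using heq)
            simp only at e1 e2 e3
            omega
          · exfalso
            have e1 := hy1 (y1, N - y1) (Prod.mk_le_mk.2 ⟨by omega, by omega⟩) (by simp only; omega)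
            have e2 := hy2 (y1, N - y1) (Prod.mk_le_mk.2 ⟨by omega, by omega⟩) (by simp only; omega)
            have e3 := hy1 (y1 + 1, N - y1 - 1) (Prod.mk_le_mk.2 ⟨by omega, by omega⟩)
              (by simp only; omega)
            have e4 := hy2 (y1 + 1, N - y1 - 1) (Prod.mk_le_mk.2 ⟨by omega, by omega⟩)
              (by simp only; omega)
            simp only at e1 e2 e3 e4
            omega
  | succ L ih =>
    intro c x
    have hu : Force (val N) x (psi (L + 1) c) ↔ ∀ y, x ≤ y → Force (val N) y (psi L (c + 2)) →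
        (Force (val N) y (psi L c) ∨ Force (val N) y (psi L (c + 1))) := Iff.rfl
    rw [hu]
    simp only [ih]
    constructor
    · rintro h ⟨y1, y2⟩ hxy hN hc
      simp only at hN hc
      have hc2 : ∀ z : ℕ × ℕ, (y1, y2) ≤ z → z.1 + z.2 + L = N → z.1 % 3 ≠ (c + 2) % 3 := by
        rintro ⟨z1, z2⟩ hz hzN
        rw [Prod.mk_le_mk] at hz
        simp only at *
        omega
      rcases h (y1, y2) hxy hc2 with h' | h'
      · have := h' (y1, y2 + 1) (Prod.mk_le_mk.2 ⟨by omega, by omega⟩) (by simp only; omega)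
        simp only at this
        omega
      · have := h' (y1 + 1, y2) (Prod.mk_le_mk.2 ⟨by omega, by omega⟩) (by simp only; omega)
        simp only at this
        omega
    · rintro h ⟨y1, y2⟩ hxy hy
      by_contra hcon
      rw [not_or] at hcon
      obtain ⟨hn1, hn2⟩ := hcon
      push Not at hn1 hn2
      obtain ⟨⟨z1, z2⟩, hz, hzN, hzc⟩ := hn1
      obtain ⟨⟨w1, w2⟩, hw, hwN, hwc⟩ := hn2
      rw [Prod.mk_le_mk] at hz hw
      simp only at hzN hzc hwN hwc
      have key : y1 + y2 + (L + 1) = N := by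
        by_contra hne
        have e0 := hy (y1, N - L - y1) (Prod.mk_le_mk.2 ⟨by omega, by omega⟩) (by simp only; omega)
        have e1 := hy (y1 + 1, N - L - (y1 + 1)) (Prod.mk_le_mk.2 ⟨by omega, by omega⟩)
          (by simp only; omega)
        have e2 := hy (y1 + 2, N - L - (y1 + 2)) (Prod.mk_le_mk.2 ⟨by omega, by omega⟩)
          (by simp only; omega)
        simp only at e0 e1 e2
        omega
      have e0 := hy (y1, y2 + 1) (Prod.mk_le_mk.2 ⟨by omega, by omega⟩) (by simp only; omega)
      have e1 := hy (y1 + 1, y2) (Prod.mk_le_mk.2 ⟨by omega, by omega⟩) (by simp only; omega)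
      have e2 := h (y1, y2) hxy (by simpa using key)
      simp only at e0 e1 e2
      omega

/-- Truth is preserved along a p-morphism. -/
theorem force_comp {W U : Type} [PartialOrder W] [PartialOrder U] (f : W → U)
    (hf : Monotone f) (hb : ∀ x u, f x ≤ u → ∃ y, x ≤ y ∧ f y = u) {k : ℕ}
    (V : Fin k → Set U) (φ : Fml k) :
    ∀ x, Force (fun i => f ⁻¹' (V i)) x φ ↔ Force V (f x) φ := by
  induction φ with
  | var i => intro x; rfl
  | bot => intro x; rfl
  | and φ ψ ih1 ih2 => intro x; simp only [Force, ih1, ih2]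
  | or φ ψ ih1 ih2 => intro x; simp only [Force, ih1, ih2]
  | imp φ ψ ih1 ih2 =>
    intro x
    simp only [Force, ih1, ih2]
    constructor
    · intro h u hu hφ
      obtain ⟨y, hxy, rfl⟩ := hb x u hu
      exact h y hxy hφ
    · intro h y hxy hφ
      exact h (f y) (hf hxy) hφ

theorem not_equiv {n : ℕ} (hn : 2 ≤ n) {L M : ℕ} (hLM : L < M) :
    ∃ V : Fin 2 → Set (Fin n → ℕ), (∀ i, IsUpperSet (V i)) ∧
      ¬ Force V 0 (psi L 0) ∧ ∀ x, Force V x (psi M 0) := by
  let f : (Fin n → ℕ) → ℕ × ℕ := fun x => (x ⟨0, by omega⟩, x ⟨1, by omega⟩)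
  have hf : Monotone f := fun x y h => Prod.mk_le_mk.2 ⟨h _, h _⟩
  have hb : ∀ x u, f x ≤ u → ∃ y, x ≤ y ∧ f y = u := by
    rintro x ⟨a, b⟩ h
    have h' : x ⟨0, by omega⟩ ≤ a ∧ x ⟨1, by omega⟩ ≤ b := Prod.mk_le_mk.1 h
    refine ⟨fun i => if i.1 = 0 then a else if i.1 = 1 then b else x i, ?_, ?_⟩
    · intro i
      by_cases h0 : i.1 = 0
      · have : i = ⟨0, by omega⟩ := Fin.ext h0
        simp only [h0, if_true]
        rw [this]; exact h'.1
      · by_cases h1 : i.1 = 1
        · have : i = ⟨1, by omega⟩ := Fin.ext h1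
          rw [this]; simpa using h'.2
        · simp [h0, h1]
    · simp [f]
  refine ⟨fun i => f ⁻¹' (val L i), fun i => (val_upper L i).preimage hf, ?_, ?_⟩
  · rw [force_comp f hf hb, force_psi]
    intro h
    exact h (f 0) le_rfl (by simp [f]) (by simp [f])
  · intro x
    rw [force_comp f hf hb, force_psi]
    intro y _ hy
    omega

/-- There is a sequence of formulas in two variables which, for every `n ≥ 2`, are pairwise
non-equivalent modulo the intermediate logic of `ω^n` (componentwise order). -/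
theorem result : ∃ f : ℕ → Fml 2, ∀ n : ℕ, 2 ≤ n → ∀ L M : ℕ, L ≠ M →
    ¬ Equivalent (Fin n → ℕ) (f L) (f M) := by
  refine ⟨fun L => psi L 0, fun n hn L M hLM h => ?_⟩
  rcases Nat.lt_or_gt_of_ne hLM with hlt | hlt
  · obtain ⟨V, hV, h1, h2⟩ := not_equiv hn hlt
    exact h1 ((h V hV 0).2 0 le_rfl (h2 0))
  · obtain ⟨V, hV, h1, h2⟩ := not_equiv hn hlt
    exact h1 ((h V hV 0).1 0 le_rfl (h2 0))

end Pool.Agent.Results.MP_d96af6_lc.NotLocallyFinite
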